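import Pool.Agent.Helper62.DSH.StB

/-!
# Project DSH, module KEJ: the main estimate
-/

set_option autoImplicit false

open Set Filter Topology MeasureTheory
open scoped ContDiff ENNReal

noncomputable section

namespace Pool.Agent.Helper54.DSH

open Helper62.LH Helper62.DSH

/-! ## Algebra -/

private lemma ker_onb (N Nc : ℕ) (L : (Fin (N + Nc) → ℝ) →ₗ[ℝ] (Fin Nc → ℝ)) :
    ∃ v : Fin N → Fin (N + Nc) → ℝ, (∀ a, L (v a) = 0) ∧
      ∀ a b, ∑ i, v a i * v b i = if a = b then 1 else 0 := by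
  let L' : EuclideanSpace ℝ (Fin (N + Nc)) →ₗ[ℝ] (Fin Nc → ℝ) :=
    L.comp (WithLp.linearEquiv 2 ℝ (Fin (N + Nc) → ℝ)).toLinearMap
  have h1 := L'.finrank_range_add_finrank_ker
  rw [finrank_euclideanSpace_fin] at h1
  have h2 : Module.finrank ℝ (LinearMap.range L') ≤ Nc := by
    have := Submodule.finrank_le (LinearMap.range L')
    rwa [Module.finrank_fin_fun] at this
  have h3 : N ≤ Module.finrank ℝ (LinearMap.ker L') := by omega
  let B := stdOrthonormalBasis ℝ (LinearMap.ker L')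
  refine ⟨fun a i => (B (Fin.castLE h3 a) : EuclideanSpace ℝ (Fin (N + Nc))) i, fun a => ?_,
    fun a b => ?_⟩
  · exact LinearMap.mem_ker.1 (B (Fin.castLE h3 a)).2
  · have h5 := orthonormal_iff_ite.1 B.orthonormal (Fin.castLE h3 a) (Fin.castLE h3 b)
    rw [Submodule.coe_inner, PiLp.inner_apply] at h5
    have h6 : (Fin.castLE h3 a = Fin.castLE h3 b) ↔ a = b :=
      (Fin.castLE_injective h3).eq_iff
    simp only [h6] at h5
    rw [← h5]
    refine Finset.sum_congr rfl fun i _ => ?_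
    rw [RCLike.inner_apply, conj_trivial, mul_comm]

private lemma sum_comb_sq {N M : ℕ} (v : Fin N → Fin M → ℝ)
    (hv : ∀ a b, ∑ i, v a i * v b i = if a = b then 1 else 0) (e : Fin N → ℝ)
    (he : ∑ a, e a ^ 2 = 1) : ∑ i, (∑ a, e a * v a i) ^ 2 = 1 := by
  have h1 : ∀ i, (∑ a, e a * v a i) ^ 2 = ∑ a, ∑ b, e a * e b * (v a i * v b i) := by
    intro i
    rw [sq, Finset.sum_mul_sum]
    refine Finset.sum_congr rfl fun a _ => Finset.sum_congr rfl fun b _ => ?_
    ring
  simp only [h1]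
  rw [Finset.sum_comm]
  have h2 : ∀ a, ∑ i, ∑ b, e a * e b * (v a i * v b i) = e a ^ 2 := by
    intro a
    rw [Finset.sum_comm]
    have h3 : ∀ b, ∑ i, e a * e b * (v a i * v b i) = if a = b then e a * e b else 0 := by
      intro b
      rw [← Finset.mul_sum, hv]
      split_ifs <;> simp
    simp only [h3]
    rw [Finset.sum_ite_eq]
    simp [sq]
  simp only [h2]
  exact he

private lemma altn_comb {n j k : ℕ} (c : Fin k → ℝ) (t : Fin k → Tn n j)
    (ht : ∀ i, Altn (t i)) : Altn (∑ i, c i • t i) := by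
  intro I σ
  rw [Finset.sum_apply, Finset.sum_apply, Finset.mul_sum]
  refine Finset.sum_congr rfl fun i _ => ?_
  rw [Pi.smul_apply, Pi.smul_apply, smul_eq_mul, smul_eq_mul, ht i I σ]
  ring

private lemma q2_neg {n j : ℕ} (t : Tn n j) : q2 (-t) = q2 t := by
  unfold q2 ipt
  congr 1
  refine Finset.sum_congr rfl fun I _ => ?_
  rw [Pi.neg_apply]
  ring

private lemma q2_cont {n j : ℕ} {s : E n → Tn n j} (hs : Continuous s) :
    Continuous (fun x => q2 (s x)) := by
  unfold q2 ipt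
  refine Continuous.div_const (continuous_finsetSum _ fun I _ => ?_) _
  exact ((continuous_apply I).comp hs).mul ((continuous_apply I).comp hs)

private lemma comb_smooth {n j k : ℕ} (c : Fin k → ℝ) (θ : Fin k → E n → Tn n j)
    (hθ : ∀ i, ContDiff ℝ ∞ (θ i)) : ContDiff ℝ ∞ (fun y => ∑ i, c i • θ i y) :=
  ContDiff.sum fun i _ => (hθ i).const_smul (c i)

private lemma dsq {n : ℕ} {g : E n → Bl n} {x : E n} {f : Fin n → E n} (hf : Onb g x f)
    (d : Dl n) {r : ℝ} (hr : 0 ≤ r) (hd : ∀ v, |d v| ≤ r * nr g x v) :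
    ∑ a, d (f a) ^ 2 ≤ r ^ 2 := by
  set s := ∑ a, d (f a) ^ 2 with hs
  have hs0 : 0 ≤ s := Finset.sum_nonneg fun a _ => sq_nonneg _
  have h1 : d (∑ a, d (f a) • f a) = s := by
    rw [map_sum, hs]
    refine Finset.sum_congr rfl fun a _ => ?_
    rw [map_smul, smul_eq_mul, sq]
  have h2 : g x (∑ a, d (f a) • f a) (∑ a, d (f a) • f a) = s := by
    have h3 : ∀ b, g x (∑ a, d (f a) • f a) (f b) = d (f b) := by
      intro b
      rw [map_sum, _root_.sum_apply]
      have h4 : ∀ a, (g x (d (f a) • f a)) (f b) = if a = b then d (f a) else 0 := by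
        intro a
        rw [map_smul, _root_.smul_apply, hf.orth, smul_eq_mul]
        split_ifs <;> simp
      simp only [h4]
      rw [Finset.sum_ite_eq' Finset.univ b]
      simp
    rw [map_sum, hs]
    refine Finset.sum_congr rfl fun b _ => ?_
    rw [map_smul, h3, smul_eq_mul, sq]
  have h5 := hd (∑ a, d (f a) • f a)
  unfold nr at h5
  rw [h1, h2, abs_of_nonneg hs0] at h5
  have h6 := Real.sq_sqrt hs0
  have h7 := Real.sqrt_nonneg s
  by_contra h8
  rw [not_le] at h8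
  have h9 : r < √s := by
    by_contra h10
    rw [not_lt] at h10
    nlinarith
  nlinarith

private lemma pair_pt {n : ℕ} (hNrm : TNrm) {g : E n → Bl n} {x : E n} {f : Fin n → E n}
    (hf : Onb g x f) {j : ℕ} (t : Tn n (j + 1)) (z : Tn n j) (d : Dl n) (q C R Λ : ℝ)
    (hC : 0 < C) (hR : 0 < R) (hΛ : 0 < Λ) (hq : q2 t ≤ q)
    (hd : ∀ v, |d v| ≤ C / R * nr g x v) :
    |ipt t (wd (fun a => d (f a) • z))| ≤
      √(j + 1) * C * Λ / 2 * q + √(j + 1) * C / (2 * R ^ 2 * Λ) * q2 z := by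
  have h7 := (hNrm n (j + 1)).2.2.1 t (wd (fun a => d (f a) • z))
  have h8 := (hNrm n j).2.2.2.2.2.1 (fun a => d (f a)) z
  have hdd := dsq hf d (r := C / R) (by positivity) hd
  have hn := ((hNrm n (j + 1)).1 t).1
  have ha := ((hNrm n j).1 z).1
  set N := q2 t with hN
  set A := q2 z with hA
  have h9 : q2 (wd (fun a => d (f a) • z)) ≤ (√(j + 1) * (C / R)) ^ 2 * A := by
    refine h8.trans ?_
    rw [mul_pow, Real.sq_sqrt (by positivity)]
    exact mul_le_mul_of_nonneg_right (mul_le_mul_of_nonneg_left hdd (by positivity)) ha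
  have h9' : √(q2 (wd (fun a => d (f a) • z))) ≤ √(j + 1) * (C / R) * √A := by
    refine (Real.sqrt_le_sqrt h9).trans (le_of_eq ?_)
    rw [Real.sqrt_mul (by positivity), Real.sqrt_sq (by positivity)]
  have h10 : √N * √A ≤ (R * Λ * N + A / (R * Λ)) / 2 := by
    have hs1 := Real.sq_sqrt hn
    have hs2 := Real.sq_sqrt ha
    have hRΛ : 0 < R * Λ := mul_pos hR hΛ
    have h11 : 0 ≤ (R * Λ * √N - √A) ^ 2 / (R * Λ) := by positivity
    have h12 : (R * Λ * √N - √A) ^ 2 / (R * Λ) = R * Λ * N - 2 * (√N * √A) + A / (R * Λ) := by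
      have h16 : (R * Λ * √N - √A) ^ 2 =
          (R * Λ) ^ 2 * √N ^ 2 - 2 * (R * Λ) * (√N * √A) + √A ^ 2 := by ring
      rw [h16, hs1, hs2]
      field_simp
    rw [h12] at h11
    linarith
  have h13 : √N * √(q2 (wd (fun a => d (f a) • z))) ≤
      (R * Λ * N + A / (R * Λ)) / 2 * (√(j + 1) * (C / R)) := by
    calc √N * √(q2 (wd (fun a => d (f a) • z)))
        ≤ √N * (√(j + 1) * (C / R) * √A) := mul_le_mul_of_nonneg_left h9' (Real.sqrt_nonneg _)
      _ = (√N * √A) * (√(j + 1) * (C / R)) := by ring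
      _ ≤ _ := mul_le_mul_of_nonneg_right h10 (by positivity)
  have h14 : (R * Λ * N + A / (R * Λ)) / 2 * (√(j + 1) * (C / R)) =
      √(j + 1) * C * Λ / 2 * N + √(j + 1) * C / (2 * R ^ 2 * Λ) * A := by
    field_simp
  rw [h14] at h13
  have h15 : √(j + 1) * C * Λ / 2 * N ≤ √(j + 1) * C * Λ / 2 * q :=
    mul_le_mul_of_nonneg_left hq (by positivity)
  linarith

/-! ## Measure theory -/

variable {n : ℕ} {g : E n → Bl n}

private lemma conv (hv : Continuous (vol g)) (hv0 : ∀ x, 0 < vol g x)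
    {F : E n → ℝ} (hF : Continuous F) (hF0 : ∀ x, 0 ≤ F x) {D K : Set (E n)}
    (hD : MeasurableSet D) (hK : IsCompact K) (hDK : D ⊆ K) :
    ∫⁻ y in D, ENNReal.ofReal (F y) ∂(mg g) = ENNReal.ofReal (∫ y in D, F y * vol g y) := by
  unfold mg
  rw [setLIntegral_withDensity_eq_setLIntegral_mul volume
    hv.measurable.ennreal_ofReal hF.measurable.ennreal_ofReal hD]
  rw [ofReal_integral_eq_lintegral_ofReal]
  · refine lintegral_congr fun y => ?_
    rw [Pi.mul_apply, ← ENNReal.ofReal_mul (hv0 y).le, mul_comm]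
  · exact ((hF.mul hv).continuousOn.integrableOn_compact hK).mono_set hDK
  · exact Filter.Eventually.of_forall fun y => mul_nonneg (hF0 y) (hv0 y).le

private lemma b_cont (hMet : StMet) (hDlc : StDlc) (hg : IsMet g) {b : E n → ℝ}
    (hb : ∀ x y, |b x - b y| ≤ dg g x y) : Continuous b := by
  have hd := (hDlc n g hg).2.2
  have h0 := (hMet n g hg).2.2.2.1
  rw [continuous_iff_continuousAt]
  intro x
  rw [ContinuousAt, tendsto_iff_norm_sub_tendsto_zero]
  have h1 : Tendsto (fun y => dg g y x) (𝓝 x) (𝓝 0) := by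
    have h2 : Continuous (fun y => dg g y x) := hd.comp (continuous_id.prodMk continuous_const)
    have h3 := h2.tendsto x
    simpa only [h0 x] using h3
  exact squeeze_zero (fun _ => norm_nonneg _) (fun y => by rw [Real.norm_eq_abs]; exact hb y x) h1

private lemma tail_lim {b Q : E n → ℝ} (hb : Continuous b) (hQ : Integrable Q) :
    Tendsto (fun m : ℝ => ∫ x in {x | m ≤ b x}, Q x) atTop (𝓝 0) := by
  have h := tendsto_setIntegral_of_antitone (μ := (volume : Measure (E n))) (f := Q)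
    (s := fun m : ℝ => {x | m ≤ b x})
    (fun m => (isClosed_le continuous_const hb).measurableSet)
    (fun m m' hm x hx => le_trans hm hx) ⟨0, hQ.integrableOn⟩
  have h2 : (⋂ m : ℝ, {x : E n | m ≤ b x}) = ∅ := by
    ext x
    simp only [mem_iInter, mem_empty_iff_false, iff_false, not_forall]
    obtain ⟨m, hm⟩ := exists_gt (b x)
    exact ⟨m, fun h => absurd (show m ≤ b x from h) (not_le.2 hm)⟩
  rwa [h2, setIntegral_empty] at h

private lemma mg_pos_fin (hv : Continuous (vol g)) (hv0 : ∀ x, 0 < vol g x) {D K : Set (E n)}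
    (hDo : IsOpen D) (hDn : D.Nonempty) (hK : IsCompact K) (hDK : D ⊆ K) :
    mg g D ≠ 0 ∧ mg g D ≠ ⊤ := by
  obtain ⟨x1, -, hmin⟩ := hK.exists_isMinOn (hDn.mono hDK) hv.continuousOn
  obtain ⟨x2, -, hmax⟩ := hK.exists_isMaxOn (hDn.mono hDK) hv.continuousOn
  have e : mg g D = ∫⁻ x in D, ENNReal.ofReal (vol g x) := by
    unfold mg
    rw [withDensity_apply _ hDo.measurableSet]
  constructor
  · have h1 : ENNReal.ofReal (vol g x1) * volume D ≤ mg g D := by
      rw [e, ← setLIntegral_const]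
      exact setLIntegral_mono' hDo.measurableSet fun x hx =>
        ENNReal.ofReal_le_ofReal (hmin (hDK hx))
    have h2 : 0 < ENNReal.ofReal (vol g x1) * volume D :=
      ENNReal.mul_pos (ENNReal.ofReal_pos.2 (hv0 x1)).ne' (hDo.measure_pos volume hDn).ne'
    exact (lt_of_lt_of_le h2 h1).ne'
  · have h1 : mg g D ≤ ENNReal.ofReal (vol g x2) * volume D := by
      rw [e, ← setLIntegral_const]
      exact setLIntegral_mono' hDo.measurableSet fun x hx =>
        ENNReal.ofReal_le_ofReal (hmax (hDK hx))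
    have h2 : ENNReal.ofReal (vol g x2) * volume D < ⊤ :=
      ENNReal.mul_lt_top ENNReal.ofReal_lt_top
        (lt_of_le_of_lt (measure_mono hDK) hK.measure_lt_top)
    exact (lt_of_le_of_lt h1 h2).ne

private lemma zeta_bound (hNrm : TNrm) (hv : Continuous (vol g)) (hv0 : ∀ x, 0 < vol g x)
    {j k : ℕ} (c : Fin k → ℝ) (hc : ∑ i, c i ^ 2 = 1) (θ' θ'' : Fin k → E n → Tn n j)
    (h1 : ∀ i, ContDiff ℝ ∞ (θ' i)) (h2 : ∀ i, ContDiff ℝ ∞ (θ'' i)) {D K : Set (E n)}
    (hD : MeasurableSet D) (hK : IsCompact K) (hDK : D ⊆ K) :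
    ∫ x in D, q2 (∑ i, c i • θ'' i x) * vol g x ≤
      2 * (∫ x in D, q2 (∑ i, c i • θ' i x) * vol g x) +
      2 * ∑ i, ∫ x in D, q2 (θ' i x - θ'' i x) * vol g x := by
  have int : ∀ F : E n → ℝ, Continuous F → IntegrableOn (fun x => F x * vol g x) D := fun F hF =>
    ((hF.mul hv).continuousOn.integrableOn_compact hK).mono_set hDK
  have c1 := q2_cont (comb_smooth c θ' h1).continuous
  have c2 := q2_cont (comb_smooth c θ'' h2).continuous
  have c3 : ∀ i, Continuous (fun x => q2 (θ' i x - θ'' i x)) := fun i =>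
    q2_cont ((h1 i).continuous.sub (h2 i).continuous)
  have e : 2 * (∫ x in D, q2 (∑ i, c i • θ' i x) * vol g x) +
      2 * ∑ i, ∫ x in D, q2 (θ' i x - θ'' i x) * vol g x =
      ∫ x in D, (2 * (q2 (∑ i, c i • θ' i x) * vol g x) +
        2 * ∑ i, q2 (θ' i x - θ'' i x) * vol g x) := by
    rw [integral_add, integral_const_mul, integral_const_mul, integral_finsetSum]
    · exact fun i _ => int _ (c3 i)
    · exact (int _ c1).const_mul 2
    · exact (integrable_finsetSum _ fun i _ => int _ (c3 i)).const_mul 2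
  rw [e]
  refine setIntegral_mono_on (int _ c2) ?_ hD fun x _ => ?_
  · exact ((int _ c1).const_mul 2).add
      ((integrable_finsetSum _ fun i _ => int _ (c3 i)).const_mul 2)
  have e2 : ∑ i, c i • θ'' i x = (∑ i, c i • θ' i x) + ∑ i, c i • (θ'' i x - θ' i x) := by
    rw [← Finset.sum_add_distrib]
    refine Finset.sum_congr rfl fun i _ => ?_
    rw [smul_sub]
    abel
  have h6 := (hNrm n j).2.2.2.1 (∑ i, c i • θ' i x) (∑ i, c i • (θ'' i x - θ' i x)) 1 one_pos
  rw [← e2] at h6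
  have h7 := (hNrm n j).2.2.2.2.1 k c (fun i => θ'' i x - θ' i x)
  rw [hc, one_mul] at h7
  have e3 : ∀ i, q2 (θ'' i x - θ' i x) = q2 (θ' i x - θ'' i x) := by
    intro i
    rw [← q2_neg, neg_sub]
  simp only [e3] at h7
  have h8 := (hv0 x).le
  have h9 : q2 (∑ i, c i • θ'' i x) ≤ 2 * q2 (∑ i, c i • θ' i x) +
      2 * ∑ i, q2 (θ' i x - θ'' i x) := by
    linarith
  calc q2 (∑ i, c i • θ'' i x) * vol g x
      ≤ (2 * q2 (∑ i, c i • θ' i x) + 2 * ∑ i, q2 (θ' i x - θ'' i x)) * vol g x :=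
        mul_le_mul_of_nonneg_right h9 h8
    _ = _ := by rw [← Finset.sum_mul]; ring

/-- combinations of harmonic forms are harmonic -/
private lemma hf_comb (hNrm : TNrm) (hDer : TDer) (hv : Continuous (vol g))
    (hv0 : ∀ x, 0 < vol g x) {Γ : E n → Bm n} {F : Fin n → E n → E n}
    {G : E n → Fin n → Fin n → Fin n → ℝ} (hF : Frm g Γ F G) {m k : ℕ} (c : Fin k → ℝ)
    (P : Fin k → E n → Tn n (m + 2)) (hP : ∀ i, Hf g F G (P i)) (ζ : E n → Tn n (m + 1))
    (hζ : ContDiff ℝ ∞ ζ) (hζa : Al ζ) (hdζ : ∀ x, dF F G ζ x = ∑ i, c i • P i x) :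
    Hf g F G (fun x => ∑ i, c i • P i x) where
  smooth := comb_smooth c P fun i => (hP i).smooth
  alt := fun x => altn_comb c (fun i => P i x) fun i => (hP i).alt x
  prim := ⟨ζ, hζ, hζa, hdζ⟩
  cocl := fun x => by
    have h := (hDer n (m + 1) g Γ F G hF).2.2.2.2.2.2.1 (fun _ => 0) k c P
      (fun i => (hP i).smooth) x
    rw [h]
    refine Finset.sum_eq_zero fun i _ => ?_
    rw [(hP i).cocl x, smul_zero]
  int := by
    have i1 : Integrable (fun x => (∑ i, c i ^ 2) * ∑ i, q2 (P i x) * vol g x) :=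
      (integrable_finsetSum _ fun i _ => (hP i).int).const_mul _
    refine i1.mono' ?_ (Filter.Eventually.of_forall fun x => ?_)
    · exact ((q2_cont (comb_smooth c P fun i => (hP i).smooth).continuous).mul
        hv).aestronglyMeasurable
    · have h1 := ((hNrm n (m + 2)).1 (∑ i, c i • P i x)).1
      have h2 := (hNrm n (m + 2)).2.2.2.2.1 k c (fun i => P i x)
      rw [Real.norm_eq_abs, abs_of_nonneg (mul_nonneg h1 (hv0 x).le), ← Finset.sum_mul,
        ← mul_assoc]
      exact mul_le_mul_of_nonneg_right h2 (hv0 x).le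

theorem hKej (hMet : StMet) (hDlc : StDlc) (hBus : StBus) (hCvd : StCvd) (hCut : StCut)
    (hDlv : StDlv) (hNrm : TNrm) (hDer : TDer) (hRkj : TRkj) (hPaj : TPaj) (hThj : TThj) :
    TKej := by
  intro n m g Γ F G hn hg hΓ hF hcp hs K0 hK0 hW
  obtain ⟨p, b, κ₀, r0, hB⟩ := hBus n g Γ hn hg hΓ hcp hs
  obtain ⟨Nc, R0, hNc, hT⟩ := hThj n m g Γ F G hg hΓ hF p b κ₀ r0 hB K0 hK0 hW
  refine ⟨Nc, hNc, fun P hP K hK δ hδ => ?_⟩
  have hbc : Continuous b := b_cont hMet hDlc hg hB.lip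
  have hv : Continuous (vol g) := (hDlv n g Γ hg hΓ).1.continuous
  have hv0 : ∀ x, 0 < vol g x := (hDlv n g Γ hg hΓ).2.1
  have hq0 : ∀ {j : ℕ} (t : Tn n j), 0 ≤ q2 t := fun {j} t => ((hNrm n j).1 t).1
  have hκ₀ := hB.kpos
  obtain ⟨C₀, hC₀, hCR⟩ := (hCut n g Γ hg hΓ p b κ₀ r0 hB).2
  set C : ℝ := √((m + 1 : ℕ) + 1) * C₀ with hCdef
  have hC : 0 < C := by positivity
  -- the total density
  set Q : E n → ℝ := fun x => (∑ i, q2 (P i x)) * vol g x with hQdef
  have hQi : Integrable Q := by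
    have h : Q = fun x => ∑ i, q2 (P i x) * vol g x := by
      funext x
      exact Finset.sum_mul _ _ _
    rw [h]
    exact integrable_finsetSum _ fun i _ => (hP i).int
  have hQ0 : ∀ x, 0 ≤ Q x := fun x =>
    mul_nonneg (Finset.sum_nonneg fun i _ => hq0 (P i x)) (hv0 x).le
  set J : ℝ := ∫ x, Q x with hJ
  have hJ0 : 0 ≤ J := integral_nonneg hQ0
  have hJc : ∀ c : Fin (n.choose (m + 1) + 1 + Nc) → ℝ, ∑ i, c i ^ 2 = 1 →
      ∀ x, q2 (∑ i, c i • P i x) ≤ ∑ i, q2 (P i x) := by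
    intro c hc x
    have h := (hNrm n (m + 2)).2.2.2.2.1 _ c (fun i => P i x)
    rwa [hc, one_mul] at h
  have hJi : ∀ c : Fin (n.choose (m + 1) + 1 + Nc) → ℝ, ∑ i, c i ^ 2 = 1 →
      ∫ x, q2 (∑ i, c i • P i x) * vol g x ≤ J := by
    intro c hc
    refine integral_mono_of_nonneg ?_ hQi ?_
    · exact Filter.Eventually.of_forall fun x => mul_nonneg (hq0 _) (hv0 x).le
    · exact Filter.Eventually.of_forall fun x =>
        mul_le_mul_of_nonneg_right (hJc c hc x) (hv0 x).le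
  set A : ℝ := ((n.choose (m + 1) + 1 : ℕ) : ℝ) * (2 * J + 3) with hA
  have hA0 : 0 ≤ A := by positivity
  set C' : ℝ := 2 ^ (n + 3) * A / κ₀ ^ 2 + 2 with hC'
  have hC'0 : 0 < C' := by positivity
  set Λ : ℝ := C * C' / δ with hΛdef
  have hΛ : 0 < Λ := by positivity
  -- choice of the radius
  have hev : ∀ᶠ r : ℝ in atTop, (∫ x in {x | r ≤ b x}, Q x) ≤ δ / (C * Λ) :=
    (tail_lim hbc hQi).eventually (ge_mem_nhds (by positivity))
  obtain ⟨M, hM⟩ : ∃ M, ∀ x ∈ K, b x ≤ M := by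
    obtain ⟨M, hM⟩ := (hK.image hbc).bddAbove
    exact ⟨M, fun x hx => hM ⟨x, hx, rfl⟩⟩
  obtain ⟨r, hmt, hm5, hmr, hmp, hmM, hmR⟩ : ∃ r : ℝ, (∫ x in {x | r ≤ b x}, Q x) ≤ δ / (C * Λ) ∧
      5 ≤ r ∧ κ₀ * r0 ≤ r ∧ b p ≤ r ∧ M ≤ r ∧ R0 ≤ r :=
    (hev.and ((eventually_ge_atTop 5).and ((eventually_ge_atTop (κ₀ * r0)).and
      ((eventually_ge_atTop (b p)).and ((eventually_ge_atTop M).and
      (eventually_ge_atTop R0)))))).exists
  set R : ℝ := 2 * r with hR
  have hR9 : 9 ≤ R := by linarith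
  have hR0 : 0 < R := by linarith
  set D : Set (E n) := {x | b x < R} with hDdef
  have hDo : IsOpen D := isOpen_lt hbc continuous_const
  have hDm : MeasurableSet D := hDo.measurableSet
  have hK' : IsCompact {x | b x ≤ R} := hB.prop R
  have hDK : D ⊆ {x | b x ≤ R} := fun x hx => by
    have h : b x < R := hx
    exact h.le
  have hpD : p ∈ D := show b p < R by linarith
  obtain ⟨hD0, hDt⟩ := mg_pos_fin hv hv0 hDo ⟨p, hpD⟩ hK' hDK
  obtain ⟨hcv1, hcv2⟩ := hCvd n g Γ hg hΓ hcp p b κ₀ r0 hB R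
  have hcv3 := hcv2 (by linarith)
  -- the primitives
  obtain ⟨L, hL⟩ := hT R (by linarith) _ P hP
  obtain ⟨v, hvL, hvo⟩ := ker_onb (n.choose (m + 1) + 1) Nc L
  have hv1 : ∀ a, ∑ i, v a i ^ 2 = 1 := by
    intro a
    have h := hvo a a
    rw [if_pos rfl] at h
    rw [← h]
    exact Finset.sum_congr rfl fun i _ => sq _
  have hN0 : (0 : ℝ) < ((n.choose (m + 1) + 1 : ℕ) : ℝ) := by positivity
  have hth := fun a => hL (v a) (hv1 a) (hvL a) (1 / ((n.choose (m + 1) + 1 : ℕ) : ℝ))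
    (by positivity)
  choose θ' θ'' hs' hs'' hal' hal'' hdd hth1 hth2 using hth
  obtain ⟨e, he, hrk⟩ := hRkj n (m + 1) g Γ F G hg hΓ hF hcp hs D hDm hD0 hDt
    (fun x hx y hy t ht z hz => hcv1 x y z t hx hy ht hz) (2 * R / κ₀) (by positivity)
    (fun x hx y hy => hcv3 x y hx hy) θ' hs' hal'
  have hc1 : ∑ i, (∑ a, e a * v a i) ^ 2 = 1 := sum_comb_sq v hvo e he
  refine ⟨fun i => ∑ a, e a * v a i, hc1, ?_⟩
  -- the estimate of the forms
  have hNFc : ∀ a, Continuous (NF F G (θ' a)) := by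
    intro a
    have h : NF F G (θ' a) = fun x => ∑ k, q2 (cv F G (θ' a) x k) := rfl
    rw [h]
    exact continuous_finsetSum _ fun k _ =>
      q2_cont (((hDer n (m + 1) g Γ F G hF).1 (θ' a) (hs' a)).1 k).continuous
  have hNF0 : ∀ a x, 0 ≤ NF F G (θ' a) x := fun a x => Finset.sum_nonneg fun k _ => hq0 _
  have iK : ∀ f : E n → ℝ, Continuous f → IntegrableOn (fun x => f x * vol g x) {x | b x ≤ R} :=
    fun f hf => (hf.mul hv).continuousOn.integrableOn_compact hK'
  have iD : ∀ f : E n → ℝ, Continuous f → IntegrableOn (fun x => f x * vol g x) D :=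
    fun f hf => (iK f hf).mono_set hDK
  have mD : ∀ f : E n → ℝ, Continuous f → (∀ x, 0 ≤ f x) →
      ∫ x in D, f x * vol g x ≤ ∫ x in {x | b x ≤ R}, f x * vol g x := fun f hf hf0 =>
    setIntegral_mono_set (iK f hf)
      (Filter.Eventually.of_forall fun x => mul_nonneg (hf0 x) (hv0 x).le)
      (Filter.Eventually.of_forall fun x hx => hDK hx)
  have hN2s : ∫ x in D, (∑ a, NF F G (θ' a) x) * vol g x ≤ A := by
    have e1 : ∫ x in D, (∑ a, NF F G (θ' a) x) * vol g x =
        ∑ a, ∫ x in D, NF F G (θ' a) x * vol g x := by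
      rw [← integral_finsetSum _ fun a _ => iD _ (hNFc a)]
      simp only [Finset.sum_mul]
    have e2 : ∀ a ∈ Finset.univ, ∫ x in D, NF F G (θ' a) x * vol g x ≤ 2 * J + 3 := by
      intro a _
      have h1 := mD _ (hNFc a) (hNF0 a)
      have h2 := hth2 a
      have h3 := hJi (v a) (hv1 a)
      linarith
    rw [e1, hA]
    refine (Finset.sum_le_sum e2).trans (le_of_eq ?_)
    rw [Finset.sum_const, Finset.card_univ, Fintype.card_fin, nsmul_eq_mul]
  have hsc : Continuous (fun x => q2 (∑ a, e a • θ' a x)) :=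
    q2_cont (comb_smooth e θ' hs').continuous
  have hI' : ∫ x in D, q2 (∑ a, e a • θ' a x) * vol g x ≤ 2 ^ n * (2 * R / κ₀) ^ 2 * A := by
    have hsum : Continuous (fun x => ∑ a, NF F G (θ' a) x) :=
      continuous_finsetSum _ fun a _ => hNFc a
    rw [conv hv hv0 hsc (fun x => hq0 _) hDm hK' hDK,
      conv hv hv0 hsum (fun x => Finset.sum_nonneg fun a _ => hNF0 a x) hDm hK' hDK,
      ← ENNReal.ofReal_mul (by positivity)] at hrk
    have h0 : 0 ≤ ∫ x in D, (∑ a, NF F G (θ' a) x) * vol g x :=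
      setIntegral_nonneg hDm fun x _ =>
        mul_nonneg (Finset.sum_nonneg fun a _ => hNF0 a x) (hv0 x).le
    have h1 := (ENNReal.ofReal_le_ofReal_iff (by positivity)).1 hrk
    exact h1.trans (mul_le_mul_of_nonneg_left hN2s (by positivity))
  have hdf : ∑ a, ∫ x in D, q2 (θ' a x - θ'' a x) * vol g x ≤ 1 := by
    have h1 : ∀ a ∈ Finset.univ,
        ∫ x in D, q2 (θ' a x - θ'' a x) * vol g x ≤ 1 / ((n.choose (m + 1) + 1 : ℕ) : ℝ) :=
      fun a _ => (mD _ (q2_cont ((hs' a).continuous.sub (hs'' a).continuous))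
        (fun x => hq0 _)).trans (hth1 a)
    refine (Finset.sum_le_sum h1).trans ?_
    rw [Finset.sum_const, Finset.card_univ, Fintype.card_fin, nsmul_eq_mul,
      mul_one_div_cancel hN0.ne']
  set ζ : E n → Tn n (m + 1) := fun x => ∑ a, e a • θ'' a x with hζ
  have hζs : ContDiff ℝ ∞ ζ := comb_smooth e θ'' hs''
  have hζa : Al ζ := fun x => altn_comb e (fun a => θ'' a x) fun a => hal'' a x
  have hζc : Continuous (fun x => q2 (ζ x)) := q2_cont hζs.continuous
  have hζb : ∫ x in D, q2 (ζ x) * vol g x ≤ C' * R ^ 2 := by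
    have h1 := zeta_bound hNrm hv hv0 e he θ' θ'' hs' hs'' hDm hK' hDK
    have h2 : 2 * (2 ^ n * (2 * R / κ₀) ^ 2 * A) + 2 * 1 ≤ C' * R ^ 2 := by
      have h3 : 2 * (2 ^ n * (2 * R / κ₀) ^ 2 * A) = 2 ^ (n + 3) * A / κ₀ ^ 2 * R ^ 2 := by
        rw [pow_add]
        field_simp
      rw [h3, hC']
      nlinarith
    linarith
  -- the harmonic combination
  set c : Fin (n.choose (m + 1) + 1 + Nc) → ℝ := fun i => ∑ a, e a * v a i with hcdef
  have hdζ : ∀ x, dF F G ζ x = ∑ i, c i • P i x := by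
    intro x
    have h := ((hDer n (m + 1) g Γ F G hF).2.2.2.2.2.1 _ e θ'' hs'' x).2
    rw [hζ, h]
    have h1 : ∀ a, e a • dF F G (θ'' a) x = ∑ i, (e a * v a i) • P i x := by
      intro a
      rw [hdd a x, Finset.smul_sum]
      exact Finset.sum_congr rfl fun i _ => by rw [smul_smul]
    rw [Finset.sum_congr rfl fun a _ => h1 a, Finset.sum_comm]
    refine Finset.sum_congr rfl fun i _ => ?_
    rw [hcdef, Finset.sum_smul]
  set Pc : E n → Tn n (m + 2) := fun x => ∑ i, c i • P i x with hPc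
  have hPcH : Hf g F G Pc := hf_comb hNrm hDer hv hv0 hF c P hP ζ hζs hζa hdζ
  have hPcq : ∀ x, q2 (Pc x) ≤ ∑ i, q2 (P i x) := hJc c hc1
  obtain ⟨χ, hχ, hχ01, hχ1, hχ2, hχ3⟩ := hCR R hR9
  have hpai := hPaj n (m + 1) g Γ F G hg hΓ hF Pc hPcH ζ hζs hdζ χ hχ
  have hRm : R / 2 = r := by rw [hR]; ring
  -- the estimate of the pairing
  set H : E n → ℝ := fun x => C * Λ / 2 * ({x | r ≤ b x} : Set (E n)).indicator Q x +
    C / (2 * R ^ 2 * Λ) * D.indicator (fun x => q2 (ζ x) * vol g x) x with hH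
  have hmc : MeasurableSet {x | r ≤ b x} := (isClosed_le continuous_const hbc).measurableSet
  have i1 : Integrable (({x | r ≤ b x} : Set (E n)).indicator Q) := hQi.indicator hmc
  have i2 : Integrable (D.indicator (fun x => q2 (ζ x) * vol g x)) :=
    (integrable_indicator_iff hDm).2 (iD _ hζc)
  have hGi : Integrable H := (i1.const_mul _).add (i2.const_mul _)
  have hGe : ∫ x, H x = C * Λ / 2 * (∫ x in {x | r ≤ b x}, Q x) +
      C / (2 * R ^ 2 * Λ) * ∫ x in D, q2 (ζ x) * vol g x := by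
    rw [hH, integral_add (i1.const_mul _) (i2.const_mul _), integral_const_mul,
      integral_const_mul, integral_indicator hmc, integral_indicator hDm]
  have hpt : ∀ x, ‖ipt (Pc x) (wd (fun a => fderiv ℝ χ x (F a x) • ζ x)) * vol g x‖ ≤ H x := by
    intro x
    have hz1 : 0 ≤ C * Λ / 2 * ({x | r ≤ b x} : Set (E n)).indicator Q x :=
      mul_nonneg (by positivity) (indicator_nonneg (fun x _ => hQ0 x) x)
    have hz2 : 0 ≤ C / (2 * R ^ 2 * Λ) * D.indicator (fun x => q2 (ζ x) * vol g x) x :=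
      mul_nonneg (by positivity) (indicator_nonneg
        (fun x _ => mul_nonneg (hq0 _) (hv0 x).le) x)
    have hzero : fderiv ℝ χ x = 0 →
        ‖ipt (Pc x) (wd (fun a => fderiv ℝ χ x (F a x) • ζ x)) * vol g x‖ ≤ H x := by
      intro h
      have h1 : ipt (Pc x) (wd (fun a => fderiv ℝ χ x (F a x) • ζ x)) = 0 := by
        rw [h]
        unfold ipt wd
        simp
      rw [h1, zero_mul, norm_zero]
      exact add_nonneg hz1 hz2
    rcases le_or_gt (b x) (R / 2) with h1 | h1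
    · exact hzero (hχ1 x h1).2
    rcases le_or_gt R (b x) with h2 | h2
    · exact hzero (hχ2 x h2).2
    have m1 : x ∈ ({x | r ≤ b x} : Set (E n)) := show r ≤ b x by linarith
    have m2 : x ∈ D := h2
    have h3 := pair_pt hNrm (hF.onb x) (Pc x) (ζ x) (fderiv ℝ χ x) _ C₀ R Λ hC₀ hR0 hΛ (hPcq x)
      (hχ3 x)
    rw [← hCdef] at h3
    rw [norm_mul, Real.norm_eq_abs, Real.norm_eq_abs, abs_of_pos (hv0 x)]
    show _ ≤ C * Λ / 2 * ({x | r ≤ b x} : Set (E n)).indicator Q x +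
      C / (2 * R ^ 2 * Λ) * D.indicator (fun x => q2 (ζ x) * vol g x) x
    rw [indicator_of_mem m1, indicator_of_mem m2]
    refine (mul_le_mul_of_nonneg_right h3 (hv0 x).le).trans (le_of_eq ?_)
    show _ = C * Λ / 2 * ((∑ i, q2 (P i x)) * vol g x) +
      C / (2 * R ^ 2 * Λ) * (q2 (ζ x) * vol g x)
    ring
  have hmain : ∫ x, χ x * q2 (Pc x) * vol g x ≤
      C * Λ / 2 * (∫ x in {x | r ≤ b x}, Q x) +
      C / (2 * R ^ 2 * Λ) * ∫ x in D, q2 (ζ x) * vol g x := by
    rw [hpai, ← hGe]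
    refine (neg_le_abs _).trans ?_
    exact norm_integral_le_of_norm_le hGi (Filter.Eventually.of_forall hpt)
  -- conclusion
  have hqc : Continuous (fun x => q2 (Pc x)) := q2_cont hPcH.smooth.continuous
  have hfin : ∫ x in K, q2 (Pc x) * vol g x ≤ ∫ x, χ x * q2 (Pc x) * vol g x := by
    rw [← integral_indicator hK.measurableSet]
    refine integral_mono ?_ ?_ fun x => ?_
    · exact (integrable_indicator_iff hK.measurableSet).2
        ((hqc.mul hv).continuousOn.integrableOn_compact hK)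
    · refine Continuous.integrable_of_hasCompactSupport
        ((hχ.1.continuous.mul hqc).mul hv) ?_
      exact (hχ.2.mul_right).mul_right
    · by_cases hx : x ∈ K
      · have h1 : b x ≤ R / 2 := by linarith [hM x hx]
        rw [indicator_of_mem hx]
        show q2 (Pc x) * vol g x ≤ χ x * q2 (Pc x) * vol g x
        rw [(hχ1 x h1).1, one_mul]
      · rw [indicator_of_notMem hx]
        have h1 := hq0 (Pc x)
        have h2 := (hχ01 x).1
        have h3 := (hv0 x).le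
        positivity
  have h1 : C * Λ / 2 * (∫ x in {x | r ≤ b x}, Q x) ≤ δ / 2 := by
    calc C * Λ / 2 * (∫ x in {x | r ≤ b x}, Q x) ≤ C * Λ / 2 * (δ / (C * Λ)) :=
          mul_le_mul_of_nonneg_left hmt (by positivity)
      _ = δ / 2 := by field_simp
  have h2 : C / (2 * R ^ 2 * Λ) * (∫ x in D, q2 (ζ x) * vol g x) ≤ δ / 2 := by
    calc C / (2 * R ^ 2 * Λ) * (∫ x in D, q2 (ζ x) * vol g x)
        ≤ C / (2 * R ^ 2 * Λ) * (C' * R ^ 2) := mul_le_mul_of_nonneg_left hζb (by positivity)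
      _ = δ / 2 := by
        rw [hΛdef]
        field_simp
  linarith

end Pool.Agent.Helper54.DSH
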