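import Pool.Agent.Helper62.DSH.StB

/-!
# Project DSH, module PAJ: integration by parts
-/

set_option autoImplicit false

open Set Filter Topology MeasureTheory
open scoped ContDiff ENNReal

noncomputable section

namespace Pool.Agent.Helper54.DSH

open Helper62.LH Helper62.DSH

private lemma ipt_add {n j : ℕ} (s t u : Tn n j) : ipt s (t + u) = ipt s t + ipt s u := by
  unfold ipt
  rw [← add_div, ← Finset.sum_add_distrib]
  congr 1
  refine Finset.sum_congr rfl fun I _ => ?_
  rw [Pi.add_apply, mul_add]

private lemma ipt_smul {n j : ℕ} (s t : Tn n j) (c : ℝ) : ipt s (c • t) = c * ipt s t := by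
  unfold ipt
  rw [← mul_div_assoc, Finset.mul_sum]
  congr 1
  refine Finset.sum_congr rfl fun I _ => ?_
  rw [Pi.smul_apply, smul_eq_mul]
  ring

private lemma ipt_zero_left {n j : ℕ} (t : Tn n j) : ipt (0 : Tn n j) t = 0 := by
  unfold ipt
  simp

private lemma ipt_zero_right {n j : ℕ} (t : Tn n j) : ipt t (0 : Tn n j) = 0 := by
  unfold ipt
  simp

private lemma ipt_cont {n j : ℕ} {s t : E n → Tn n j} (hs : Continuous s) (ht : Continuous t) :
    Continuous (fun x => ipt (s x) (t x)) := by
  unfold ipt
  refine Continuous.div_const (continuous_finsetSum _ fun I _ => ?_) _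
  exact ((continuous_apply I).comp hs).mul ((continuous_apply I).comp ht)

private lemma wd_cont {n j : ℕ} {p : E n → Fin n → Tn n j} (hp : ∀ a, Continuous (fun x => p x a)) :
    Continuous (fun x => wd (p x)) := by
  unfold wd
  refine continuous_pi fun J => continuous_finsetSum _ fun c _ => ?_
  exact continuous_const.mul ((continuous_apply _).comp (hp (J c)))

private lemma wd_zero {n j : ℕ} : wd (fun _ : Fin n => (0 : Tn n j)) = 0 := by
  funext J
  unfold wd
  simp

theorem hPaj (hDlv : StDlv) (hDer : TDer) (hLbz : TLbz) (hAdj : TAdj) : TPaj := by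
  intro n j g Γ F G hg hΓ hF P hP ζ hζ hdζ χ hχ
  have _ := hDer
  obtain ⟨hv, hv0, -⟩ := hDlv n g Γ hg hΓ
  have hβ : ContDiff ℝ ∞ (fun y => χ y • ζ y) := hχ.1.smul hζ
  have hβc : HasCompactSupport (fun y => χ y • ζ y) := hχ.2.smul_right
  have h := hAdj n j g Γ F G hg hΓ hF (fun _ => 0) contDiff_const P hP.smooth hP.alt
    (fun y => χ y • ζ y) hβ hβc
  have hw : ∀ x, wt g (fun _ => (0 : ℝ)) x = vol g x := by
    intro x
    unfold wt
    rw [neg_zero, Real.exp_zero, one_mul]
  have hr : ∫ x, ipt (dlF F G (fun _ => 0) P x) (χ x • ζ x) * wt g (fun _ => 0) x = 0 := by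
    have e : (fun x => ipt (dlF F G (fun _ => 0) P x) (χ x • ζ x) * wt g (fun _ => 0) x) =
        fun _ => 0 := by
      funext x
      rw [hP.cocl x, ipt_zero_left, zero_mul]
    rw [e, integral_zero]
  rw [hr, neg_zero] at h
  have hL := (hLbz n j g Γ F G hF).2.1 χ ζ hχ.1 hζ
  have e : (fun x => ipt (P x) (dF F G (fun y => χ y • ζ y) x) * wt g (fun _ => 0) x) =
      fun x => χ x * q2 (P x) * vol g x +
        ipt (P x) (wd (fun a => fderiv ℝ χ x (F a x) • ζ x)) * vol g x := by
    funext x
    rw [(hL x).2, hdζ x, ipt_add, ipt_smul, hw]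
    unfold q2
    ring
  rw [e] at h
  have hPc : Continuous P := hP.smooth.continuous
  have hfd : Continuous (fderiv ℝ χ) := hχ.1.continuous_fderiv (by simp)
  have hpc : ∀ a, Continuous (fun x => fderiv ℝ χ x (F a x) • ζ x) := fun a =>
    (hfd.clm_apply (hF.smF a).continuous).smul hζ.continuous
  have i1 : Integrable (fun x => χ x * q2 (P x) * vol g x) := by
    refine Continuous.integrable_of_hasCompactSupport ?_ ?_
    · exact (hχ.1.continuous.mul (ipt_cont hPc hPc)).mul hv.continuous
    · exact (hχ.2.mul_right).mul_right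
  have i2 : Integrable
      (fun x => ipt (P x) (wd (fun a => fderiv ℝ χ x (F a x) • ζ x)) * vol g x) := by
    refine Continuous.integrable_of_hasCompactSupport ?_ ?_
    · exact (ipt_cont hPc (wd_cont hpc)).mul hv.continuous
    · refine HasCompactSupport.intro hχ.2 fun x hx => ?_
      have h0 : fderiv ℝ χ x = 0 := by
        have h1 : x ∉ tsupport (fderiv ℝ χ) := fun h1 => hx (tsupport_fderiv_subset ℝ h1)
        exact image_eq_zero_of_notMem_tsupport h1
      have h2 : (fun a => fderiv ℝ χ x (F a x) • ζ x) = fun _ : Fin n => (0 : Tn n j) := by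
        funext a
        rw [h0]
        simp
      rw [h2, wd_zero, ipt_zero_right, zero_mul]
  rw [integral_add i1 i2] at h
  linarith

end Pool.Agent.Helper54.DSH
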